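import Pool.Agent.TH107.LB.Lin
import Pool.Agent.H26R2.Bass.Main

set_option autoImplicit false

/-!
Groups in which all chains of roots prescribed by a domain have bounded exponent; this class is
closed under subgroups, finite index overgroups and extensions.
-/

namespace Pool.Agent.TH107.LB

universe u v w

/-- the primes relevant for the domain `R` and the modulus `m` -/
def Rel (R : Type u) [CommRing R] (m p : ℕ) : Prop :=
  ¬ IsUnit (p : R) ∨ (CharZero R ∧ ¬ p ∣ m)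

/-- a chain of roots, each relevant prime divides almost all exponents -/
def Chain (R : Type u) [CommRing R] (m : ℕ) {G : Type v} [Group G] (b : ℕ → G) : Prop :=
  ∃ N : ℕ → ℕ, (∀ i, b (i + 1) ^ N i = b i) ∧
    ∀ p : ℕ, p.Prime → Rel R m p → ∀ i, p ≤ i → p ∣ N i

/-- all chains have bounded exponent -/
def W (R : Type u) [CommRing R] (G : Type v) [Group G] : Prop :=
  ∀ m : ℕ, 0 < m → ∀ b : ℕ → G, Chain R m b → ∃ s : ℕ, 0 < s ∧ ∀ i, b i ^ s = 1

variable {R : Type u} [CommRing R]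

theorem Chain.map {m : ℕ} {G : Type v} {H : Type w} [Group G] [Group H] (f : G →* H)
    {b : ℕ → G} (h : Chain R m b) : Chain R m (fun i => f (b i)) := by
  obtain ⟨N, h1, h2⟩ := h
  exact ⟨N, fun i => by rw [← map_pow, h1], h2⟩

/-- powers of a chain, in a subgroup -/
theorem Chain.pow {m : ℕ} {G : Type v} [Group G] (H : Subgroup G) (s : ℕ) {b : ℕ → G}
    (h : Chain R m b) (hs : ∀ i, b i ^ s ∈ H) :
    Chain R m (fun i => (⟨b i ^ s, hs i⟩ : H)) := by
  obtain ⟨N, h1, h2⟩ := h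
  refine ⟨N, fun i => Subtype.ext ?_, h2⟩
  change (b (i + 1) ^ s) ^ N i = b i ^ s
  rw [← pow_mul, mul_comm, pow_mul, h1]

/-- members of a chain are high powers of each other -/
theorem Chain.root {m : ℕ} {G : Type v} [Group G] {b : ℕ → G} (h : Chain R m b) {p : ℕ}
    (hp : p.Prime) (hr : Rel R m p) (i : ℕ) (j : ℕ) : ∃ c : ℕ, ∃ k : ℕ, b k ^ (p ^ j * c) = b i := by
  obtain ⟨N, h1, h2⟩ := h
  -- first move to an index at least p
  have h3 : ∀ k : ℕ, ∃ c : ℕ, b (i + k) ^ c = b i := by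
    intro k
    induction k with
    | zero => exact ⟨1, pow_one _⟩
    | succ k ih =>
      obtain ⟨c, hc⟩ := ih
      refine ⟨N (i + k) * c, ?_⟩
      rw [pow_mul, ← add_assoc, h1, hc]
  have h4 : ∀ (l : ℕ), p ≤ l → ∀ j : ℕ, ∃ c : ℕ, b (l + j) ^ (p ^ j * c) = b l := by
    intro l hl j
    induction j with
    | zero => exact ⟨1, by simp⟩
    | succ j ih =>
      obtain ⟨c, hc⟩ := ih
      obtain ⟨d, hd⟩ := h2 p hp hr (l + j) (by omega)
      refine ⟨d * c, ?_⟩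
      have e1 : p ^ (j + 1) * (d * c) = N (l + j) * (p ^ j * c) := by rw [hd]; ring
      rw [e1, pow_mul, ← add_assoc, h1, hc]
  obtain ⟨c, hc⟩ := h3 p
  obtain ⟨d, hd⟩ := h4 (i + p) (by omega) j
  refine ⟨d * c, i + p + j, ?_⟩
  rw [← mul_assoc, pow_mul, hd, hc]

theorem W.sub {G : Type v} {H : Type w} [Group G] [Group H] (f : H →* G)
    (hf : Function.Injective f) (hG : W R G) : W R H := by
  intro m hm b hb
  obtain ⟨s, hs, h⟩ := hG m hm _ (hb.map f)
  refine ⟨s, hs, fun i => hf ?_⟩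
  rw [map_pow, map_one]
  exact h i

theorem W.of_pow {G : Type v} [Group G] (H : Subgroup G) (h : W R H) {m : ℕ} (hm : 0 < m)
    {b : ℕ → G} (hb : Chain R m b) {s : ℕ} (hs : 0 < s) (hsH : ∀ i, b i ^ s ∈ H) :
    ∃ s : ℕ, 0 < s ∧ ∀ i, b i ^ s = 1 := by
  obtain ⟨t, ht, h1⟩ := h m hm _ (hb.pow H s hsH)
  refine ⟨s * t, Nat.mul_pos hs ht, fun i => ?_⟩
  rw [pow_mul]
  exact congrArg Subtype.val (h1 i)

theorem W.fi {G : Type v} [Group G] (H : Subgroup G) (hH : H.FiniteIndex) (h : W R H) :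
    W R G := by
  set C := H.normalCore with hC
  have hCfi : C.FiniteIndex := inferInstance
  intro m hm b hb
  exact h.of_pow H hm hb (Nat.pos_of_ne_zero hCfi.index_ne_zero)
    fun i => H.normalCore_le (C.pow_index_mem _)

theorem W.ext {G : Type v} {Q : Type w} [Group G] [Group Q] (f : G →* Q) (hQ : W R Q)
    (hK : W R f.ker) : W R G := by
  intro m hm b hb
  obtain ⟨s, hs, h1⟩ := hQ m hm _ (hb.map f)
  refine hK.of_pow f.ker hm hb hs fun i => ?_
  rw [MonoidHom.mem_ker, map_pow]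
  exact h1 i

/-- enough primes -/
def Enough (R : Type u) [CommRing R] (P : ℕ → Prop) : Prop :=
  (∃ p : ℕ, p.Prime ∧ ¬ IsUnit (p : R) ∧ P p) ∨
    (CharZero R ∧ ∀ m : ℕ, ∃ p : ℕ, m < p ∧ p.Prime ∧ P p)

theorem Enough.mono {P Q : ℕ → Prop} (h : Enough R P) (hPQ : ∀ p, p.Prime → P p → Q p) :
    Enough R Q := by
  rcases h with ⟨p, h1, h2, h3⟩ | ⟨h1, h2⟩
  · exact Or.inl ⟨p, h1, h2, hPQ p h1 h3⟩
  · refine Or.inr ⟨h1, fun m => ?_⟩
    obtain ⟨p, h3, h4, h5⟩ := h2 m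
    exact ⟨p, h3, h4, hPQ p h4 h5⟩

theorem Enough.get {P : ℕ → Prop} (h : Enough R P) {m : ℕ} (hm : 0 < m) :
    ∃ p : ℕ, p.Prime ∧ Rel R m p ∧ P p := by
  rcases h with ⟨p, h1, h2, h3⟩ | ⟨h1, h2⟩
  · exact ⟨p, h1, Or.inl h2, h3⟩
  · obtain ⟨p, h3, h4, h5⟩ := h2 m
    exact ⟨p, h4, Or.inr ⟨h1, fun h => absurd (Nat.le_of_dvd hm h) (by omega)⟩, h5⟩

theorem W.of_RP {G : Type v} [Group G] (h : Enough R fun p => RP p G) : W R G := by
  intro m hm b hb
  obtain ⟨p, hp, hr, N, hn, hf, hsep⟩ := h.get hm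
  refine ⟨N.index, Nat.pos_of_ne_zero hf.index_ne_zero, fun i => ?_⟩
  by_contra hne
  obtain ⟨K, hK, _, ⟨e, he⟩, hgK⟩ := hsep _ hne
  apply hgK
  obtain ⟨c, k, hk⟩ := hb.root hp hr i e
  rw [← hk, ← pow_mul]
  have e1 : p ^ e * c * N.index = N.index * p ^ e * c := by ring
  rw [e1, pow_mul, pow_mul]
  exact K.pow_mem (he _ (N.pow_index_mem _)) c

/-- residual step -/
theorem W.resid {G : Type v} [Group G] (N : Subgroup G) (hN : W R N)
    (h : ∀ x : G, x ∉ N → Enough R fun p => ∃ (F : Type w) (_ : Group F) (_ : Finite F)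
      (f : G →* F), IsPGroup p F ∧ (∀ y ∈ N, f y = 1) ∧ f x ≠ 1) : W R G := by
  intro m hm b hb
  refine hN.of_pow N hm hb one_pos fun i => ?_
  rw [pow_one]
  by_contra hne
  obtain ⟨p, hp, hr, F, _, _, f, hF, _, hx⟩ := (h _ hne).get hm
  apply hx
  haveI := Fact.mk hp
  obtain ⟨n, hn⟩ := (IsPGroup.iff_card).1 hF
  obtain ⟨c, k, hk⟩ := hb.root hp hr i n
  rw [← hk, map_pow, pow_mul, ← hn, pow_card_eq_one', one_pow]

open Pool.Agent.H26R2.Bass Pool.Agent.H26R2.IdemLI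

/-- a chain from conjugacies -/
theorem chain_of_conj {m : ℕ} {G : Type v} [Group G] (g : G)
    (h : ∀ p : ℕ, p.Prime → Rel R m p → ∃ j : ℕ, 1 ≤ j ∧ IsConj g (g ^ p ^ j)) :
    ∃ b : ℕ → G, b 0 = g ∧ Chain R m b := by
  classical
  -- exponents
  have hN : ∀ i : ℕ, ∃ N : ℕ, IsConj g (g ^ N) ∧
      ∀ p : ℕ, p.Prime → Rel R m p → p ≤ i → p ∣ N := by
    intro i
    induction i with
    | zero =>
      refine ⟨1, by rw [pow_one], fun p hp _ h0 => ?_⟩
      exact absurd hp.pos (by omega)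
    | succ i ih =>
      obtain ⟨N, hN1, hN2⟩ := ih
      by_cases hp : (i + 1).Prime ∧ Rel R m (i + 1)
      · obtain ⟨j, hj, hc⟩ := h (i + 1) hp.1 hp.2
        refine ⟨N * (i + 1) ^ j, ?_, ?_⟩
        · obtain ⟨x, hx⟩ := isConj_iff.1 hN1
          obtain ⟨y, hy⟩ := isConj_iff.1 hc
          refine isConj_iff.2 ⟨y * x, ?_⟩
          have e1 : y * x * g * (y * x)⁻¹ = y * (x * g * x⁻¹) * y⁻¹ := by group
          rw [e1, hx]
          have e2 : y * g ^ N * y⁻¹ = (y * g * y⁻¹) ^ N := (conj_pow).symm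
          rw [e2, hy, ← pow_mul, mul_comm]
        · intro p hp' hr hpi
          rcases Nat.lt_or_ge p (i + 1) with h1 | h1
          · exact Dvd.dvd.mul_right (hN2 p hp' hr (by omega)) _
          · obtain rfl : p = i + 1 := by omega
            exact Dvd.dvd.mul_left (dvd_pow_self _ (by omega)) _
      · refine ⟨N, hN1, fun p hp' hr hpi => ?_⟩
        rcases Nat.lt_or_ge p (i + 1) with h1 | h1
        · exact hN2 p hp' hr (by omega)
        · obtain rfl : p = i + 1 := by omega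
          exact absurd ⟨hp', hr⟩ hp
  choose N hN1 hN2 using hN
  have hx : ∀ i, ∃ x : G, x * g * x⁻¹ = g ^ N i := fun i => isConj_iff.1 (hN1 i)
  choose x hx using hx
  -- conjugators
  let y : ℕ → G := fun i => Nat.rec 1 (fun i yi => yi * (x i)⁻¹) i
  have hy : ∀ i, y (i + 1) = y i * (x i)⁻¹ := fun i => rfl
  refine ⟨fun i => y i * g * (y i)⁻¹, ?_, N, fun i => ?_, fun p hp hr i hi => hN2 i p hp hr hi⟩
  · change 1 * g * 1⁻¹ = g
    group
  · change (y (i + 1) * g * (y (i + 1))⁻¹) ^ N i = y i * g * (y i)⁻¹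
    rw [conj_pow, ← hx i, hy]
    group

theorem good_of_W [IsDomain R] {G : Type v} [Group G] (hG : W R G) (g : G)
    (hg : ¬ ∃ n : ℕ, 0 < n ∧ g ^ n = 1) : Good R g := by
  by_cases h1 : ∃ p : ℕ, p.Prime ∧ ¬ IsUnit (p : R) ∧ ∀ j : ℕ, 1 ≤ j → ¬ IsConj g (g ^ p ^ j)
  · exact Or.inr (Or.inl h1)
  by_cases h2 : CharZero R ∧ ¬ AlmostDiv g
  · exact Or.inr (Or.inr h2)
  exfalso
  apply hg
  push Not at h1
  have key : ∃ m : ℕ, 0 < m ∧ ∀ p : ℕ, p.Prime → Rel R m p →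
      ∃ j : ℕ, 1 ≤ j ∧ IsConj g (g ^ p ^ j) := by
    by_cases h0 : CharZero R
    · have h3 : AlmostDiv g := by
        by_contra h3
        exact h2 ⟨h0, h3⟩
      obtain ⟨m, J, hm, hJ, h4⟩ := h3
      refine ⟨m, by omega, ?_⟩
      rintro p hp (hr | ⟨_, hr⟩)
      · exact h1 p hp hr
      · exact ⟨J, hJ, h4 p ((Nat.Prime.coprime_iff_not_dvd hp).2 hr)⟩
    · refine ⟨1, one_pos, ?_⟩
      rintro p hp (hr | ⟨hr, _⟩)
      · exact h1 p hp hr
      · exact absurd hr h0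
  obtain ⟨m, hm, h3⟩ := key
  obtain ⟨b, hb0, hb⟩ := chain_of_conj g h3
  obtain ⟨s, hs, h4⟩ := hG m hm b hb
  exact ⟨s, hs, by rw [← hb0]; exact h4 0⟩

end Pool.Agent.TH107.LB
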