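import Pool.Agent.TH107.LB.RB
import Pool.Agent.TH107.LB.W

set_option autoImplicit false

/-!
Finitely generated groups of automorphisms of an affine domain over a field act faithfully on a
finitely generated domain.
-/

namespace Pool.Agent.TH107.LB

universe u v

section

variable {K B : Type} [Field K] [CommRing B] [Algebra K B]

lemma exists_coeffs (s : Finset B) {x : B} (hx : x ∈ Algebra.adjoin K (s : Set B)) :
    ∃ C : Finset B, (∀ c ∈ C, ∃ r : K, algebraMap K B r = c) ∧
      x ∈ Algebra.adjoin ℤ ((C ∪ s : Set B)) := by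
  classical
  induction hx using Algebra.adjoin_induction with
  | mem x hx => exact ⟨∅, by simp, Algebra.subset_adjoin (Or.inr hx)⟩
  | algebraMap r =>
    refine ⟨{algebraMap K B r}, ?_, Algebra.subset_adjoin (Or.inl (by simp))⟩
    intro c hc
    rw [Finset.mem_singleton] at hc
    exact ⟨r, hc.symm⟩
  | add x y _ _ hx hy =>
    obtain ⟨C, h1, h2⟩ := hx
    obtain ⟨D, h3, h4⟩ := hy
    refine ⟨C ∪ D, ?_, ?_⟩
    · intro c hc
      rcases Finset.mem_union.1 hc with h | h
      · exact h1 c h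
      · exact h3 c h
    · refine (Algebra.adjoin ℤ _).add_mem (Algebra.adjoin_mono ?_ h2) (Algebra.adjoin_mono ?_ h4)
      · intro z hz
        rcases hz with hz | hz
        · exact Or.inl (by simp only [Finset.coe_union]; exact Or.inl hz)
        · exact Or.inr hz
      · intro z hz
        rcases hz with hz | hz
        · exact Or.inl (by simp only [Finset.coe_union]; exact Or.inr hz)
        · exact Or.inr hz
  | mul x y _ _ hx hy =>
    obtain ⟨C, h1, h2⟩ := hx
    obtain ⟨D, h3, h4⟩ := hy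
    refine ⟨C ∪ D, ?_, ?_⟩
    · intro c hc
      rcases Finset.mem_union.1 hc with h | h
      · exact h1 c h
      · exact h3 c h
    · refine (Algebra.adjoin ℤ _).mul_mem (Algebra.adjoin_mono ?_ h2) (Algebra.adjoin_mono ?_ h4)
      · intro z hz
        rcases hz with hz | hz
        · exact Or.inl (by simp only [Finset.coe_union]; exact Or.inl hz)
        · exact Or.inr hz
      · intro z hz
        rcases hz with hz | hz
        · exact Or.inl (by simp only [Finset.coe_union]; exact Or.inr hz)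
        · exact Or.inr hz

theorem exists_model [CharZero K] [Algebra.FiniteType K B]
    (H : Subgroup (B ≃ₐ[K] B)) (hH : H.FG) :
    ∃ (A : Type) (_ : CommRing A) (_ : Algebra.FiniteType ℤ A) (f : H →* RingAut A),
      (∀ n : ℕ, n ≠ 0 → ∀ a : A, (n : A) * a = 0 → a = 0) ∧ Function.Injective f := by
  classical
  obtain ⟨s, hs⟩ := (Algebra.FiniteType.out : (⊤ : Subalgebra K B).FG)
  obtain ⟨S, hS⟩ := hH
  have hc : ∀ x : B, ∃ C : Finset B, (∀ c ∈ C, ∃ r : K, algebraMap K B r = c) ∧
      x ∈ Algebra.adjoin ℤ ((C ∪ s : Set B)) := fun x => exists_coeffs s (by rw [hs]; trivial)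
  choose C hC1 hC2 using hc
  let S' : Finset (B ≃ₐ[K] B) := S ∪ S.image (fun φ => φ⁻¹)
  let T : Finset B := (S'.biUnion fun φ => s.biUnion fun b => C (φ b)) ∪ s
  let A : Subalgebra ℤ B := Algebra.adjoin ℤ (T : Set B)
  haveI hAf : Algebra.FiniteType ℤ A := by
    rw [← Subalgebra.fg_iff_finiteType]
    exact ⟨_, rfl⟩
  have htf : ∀ n : ℕ, n ≠ 0 → ∀ a : A, (n : A) * a = 0 → a = 0 := by
    intro n hn a ha
    apply Subtype.ext
    have h1 : (n : B) * (a : B) = 0 := by
      have h2 := congrArg Subtype.val ha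
      simpa using h2
    have h3 : algebraMap K B ((n : K)⁻¹) * ((n : B) * (a : B)) = (a : B) := by
      have h4 : algebraMap K B ((n : K)⁻¹) * (n : B) = 1 := by
        rw [← map_natCast (algebraMap K B) n, ← map_mul, inv_mul_cancel₀, map_one]
        exact_mod_cast hn
      rw [← mul_assoc, h4, one_mul]
    rw [← h3, h1, mul_zero]
    rfl
  -- invariance
  have hgen : ∀ φ ∈ S', ∀ a ∈ A, φ a ∈ A := by
    intro φ hφ a ha
    induction ha using Algebra.adjoin_induction with
    | mem x hx =>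
      rw [Finset.mem_coe, Finset.mem_union] at hx
      rcases hx with hx | hx
      · obtain ⟨ψ, _, hx⟩ := Finset.mem_biUnion.1 hx
        obtain ⟨b, _, hx⟩ := Finset.mem_biUnion.1 hx
        have hxA : x ∈ A := Algebra.subset_adjoin (Finset.mem_coe.2 (Finset.mem_union_left _
          (Finset.mem_biUnion.2 ⟨ψ, by assumption, Finset.mem_biUnion.2 ⟨b, by assumption, hx⟩⟩)))
        obtain ⟨r, hr⟩ := hC1 _ x hx
        rw [← hr, AlgEquiv.commutes, hr]
        exact hxA
      · have h1 := hC2 (φ x)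
        refine Algebra.adjoin_mono ?_ h1
        intro z hz
        rcases hz with hz | hz
        · exact Finset.mem_coe.2 (Finset.mem_union_left _
            (Finset.mem_biUnion.2 ⟨φ, hφ, Finset.mem_biUnion.2 ⟨x, hx, hz⟩⟩))
        · exact Finset.mem_coe.2 (Finset.mem_union_right _ hz)
    | algebraMap r =>
      have h1 : φ (algebraMap ℤ B r) = algebraMap ℤ B r := by simp
      rw [h1]
      exact A.algebraMap_mem r
    | add x y _ _ hx hy => rw [map_add]; exact A.add_mem hx hy
    | mul x y _ _ hx hy => rw [map_mul]; exact A.mul_mem hx hy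
  have hinv : ∀ φ ∈ H, (∀ a ∈ A, φ a ∈ A) ∧ ∀ a ∈ A, φ⁻¹ a ∈ A := by
    intro φ hφ
    rw [← hS] at hφ
    induction hφ using Subgroup.closure_induction with
    | mem φ hφ =>
      exact ⟨hgen φ (Finset.mem_union_left _ hφ),
        hgen φ⁻¹ (Finset.mem_union_right _ (Finset.mem_image_of_mem _ hφ))⟩
    | one => exact ⟨fun a ha => ha, fun a ha => by rw [inv_one]; exact ha⟩
    | mul φ ψ _ _ hφ hψ =>
      refine ⟨fun a ha => ?_, fun a ha => ?_⟩
      · rw [AlgEquiv.mul_apply]
        exact hφ.1 _ (hψ.1 a ha)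
      · rw [mul_inv_rev, AlgEquiv.mul_apply]
        exact hψ.2 _ (hφ.2 a ha)
    | inv φ _ hφ => exact ⟨hφ.2, by rw [inv_inv]; exact hφ.1⟩
  have hii : ∀ (φ : B ≃ₐ[K] B) (a : B), φ (φ⁻¹ a) = a := by
    intro φ a
    rw [← AlgEquiv.mul_apply, mul_inv_cancel, AlgEquiv.one_apply]
  have hii' : ∀ (φ : B ≃ₐ[K] B) (a : B), φ⁻¹ (φ a) = a := by
    intro φ a
    rw [← AlgEquiv.mul_apply, inv_mul_cancel, AlgEquiv.one_apply]
  let f : H →* RingAut A :=
    { toFun := fun φ =>
        { toFun := fun a => ⟨φ.1 a, (hinv φ.1 φ.2).1 a a.2⟩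
          invFun := fun a => ⟨φ.1⁻¹ a, (hinv φ.1 φ.2).2 a a.2⟩
          left_inv := fun a => Subtype.ext (hii' _ _)
          right_inv := fun a => Subtype.ext (hii _ _)
          map_mul' := fun a b => Subtype.ext (map_mul φ.1 (a : B) b)
          map_add' := fun a b => Subtype.ext (map_add φ.1 (a : B) b) }
      map_one' := rfl
      map_mul' := fun φ ψ => rfl }
  refine ⟨A, inferInstance, hAf, f, htf, ?_⟩
  intro φ ψ h
  apply Subtype.ext
  have h1 : (φ.1 : B →ₐ[K] B) = (ψ.1 : B →ₐ[K] B) := by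
    apply AlgHom.ext_of_adjoin_eq_top hs
    intro b hb
    have hbA : b ∈ A := Algebra.subset_adjoin (Finset.mem_coe.2 (Finset.mem_union_right _ hb))
    exact congrArg Subtype.val (DFunLike.congr_fun h (⟨b, hbA⟩ : A))
  ext b
  exact DFunLike.congr_fun h1 b

end

theorem RP.sub {p : ℕ} {Γ : Type u} {H : Type v} [Group Γ] [Group H] (hΓ : RP p Γ) (f : H →* Γ)
    (hf : Function.Injective f) : RP p H := by
  have hcomap : ∀ L : Subgroup Γ, L.FiniteIndex → (L.comap f).FiniteIndex := by
    intro L hL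
    have h1 : (L.subgroupOf f.range).FiniteIndex := inferInstance
    refine ⟨?_⟩
    rw [Subgroup.index_comap]
    exact h1.index_ne_zero
  obtain ⟨N, hn, hfi, hsep⟩ := hΓ
  refine ⟨N.comap f, inferInstance, hcomap N hfi, fun g hg => ?_⟩
  obtain ⟨K, hK, hKf, ⟨e, he⟩, hgK⟩ := hsep (f g) (fun h => hg (hf (h.trans (map_one f).symm)))
  refine ⟨K.comap f, inferInstance, hcomap K hKf, ⟨e, fun h hh => ?_⟩, hgK⟩
  rw [Subgroup.mem_comap, map_pow]
  exact he _ hh

/-- all primes beyond some point -/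
theorem Enough.of_finset {R : Type u} [CommRing R] [CharZero R] {P : ℕ → Prop} (E : Finset ℕ)
    (h : ∀ p : ℕ, p.Prime → p ∉ E → P p) : Enough R P := by
  refine Or.inr ⟨inferInstance, fun m => ?_⟩
  obtain ⟨p, hp, hp2⟩ := Nat.exists_infinite_primes (m + E.sup id + 1)
  refine ⟨p, by omega, hp2, h p hp2 fun hE => ?_⟩
  have := Finset.le_sup (f := id) hE
  simp only [id] at this
  omega

end Pool.Agent.TH107.LB
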