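import Mathlib

set_option autoImplicit false

/-!
The automorphism group of a finitely generated group which is virtually residually a finite p-group
is again virtually residually a finite p-group.
-/

namespace Pool.Agent.TH107.LB

universe u v

/-- virtually residually a finite p-group -/
def RP (p : ℕ) (Γ : Type u) [Group Γ] : Prop :=
  ∃ N : Subgroup Γ, N.Normal ∧ N.FiniteIndex ∧ ∀ g : Γ, g ≠ 1 →
    ∃ K : Subgroup Γ, K.Normal ∧ K.FiniteIndex ∧ (∃ e : ℕ, ∀ h ∈ N, h ^ (p ^ e) ∈ K) ∧ g ∉ K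

section core

variable (Γ : Type u) [Group Γ]

/-- the intersection of the kernels of all homomorphisms to a symmetric group -/
def core (n : ℕ) : Subgroup Γ := ⨅ f : Γ →* Equiv.Perm (Fin n), f.ker

instance core_char (n : ℕ) : (core Γ n).Characteristic := by
  rw [Subgroup.characteristic_iff_map_le]
  rintro φ _ ⟨x, hx, rfl⟩
  have hx' : x ∈ core Γ n := hx
  rw [core, Subgroup.mem_iInf] at hx' ⊢
  intro f
  exact hx' (f.comp φ.toMonoidHom)

theorem finite_hom (F : Type v) [Group F] [Finite F] [hfg : Group.FG Γ] : Finite (Γ →* F) := by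
  classical
  obtain ⟨S, hS⟩ := (Group.fg_def.1 hfg)
  have : Function.Injective (fun (f : Γ →* F) (s : S) => f (s : Γ)) := by
    intro f g hfg
    apply MonoidHom.eq_of_eqOn_dense hS
    intro s hs
    exact congrFun hfg ⟨s, hs⟩
  exact Finite.of_injective _ this

theorem core_fi [Group.FG Γ] (n : ℕ) : (core Γ n).FiniteIndex := by
  have := finite_hom Γ (Equiv.Perm (Fin n))
  unfold core
  apply Subgroup.finiteIndex_iInf
  intro f
  infer_instance

theorem core_le {n : ℕ} (hn : n ≠ 0) (H : Subgroup Γ) (hH : H.index = n) : core Γ n ≤ H := by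
  classical
  have hfin : Finite (Γ ⧸ H) := by
    have : H.FiniteIndex := ⟨by rw [hH]; exact hn⟩
    exact Subgroup.finite_quotient_of_finiteIndex
  let e : Γ ⧸ H ≃ Fin n := Finite.equivFinOfCardEq hH
  let f : Γ →* Equiv.Perm (Fin n) :=
    (e.permCongrHom).toMonoidHom.comp (MulAction.toPermHom Γ (Γ ⧸ H))
  have h1 : core Γ n ≤ f.ker := iInf_le _ f
  refine h1.trans ?_
  intro x hx
  have h2 : (MulAction.toPermHom Γ (Γ ⧸ H)) x = 1 := by
    apply (e.permCongrHom).injective
    rw [map_one]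
    exact hx
  have h3 := congrArg (fun σ : Equiv.Perm (Γ ⧸ H) => σ (QuotientGroup.mk 1)) h2
  have h4 : (QuotientGroup.mk (x * 1) : Γ ⧸ H) = QuotientGroup.mk 1 := h3
  rw [QuotientGroup.eq] at h4
  simpa using h4

end core

section act

variable {Γ : Type u} [Group Γ]

/-- the action on the quotient by a characteristic subgroup -/
def act (K : Subgroup Γ) [hK : K.Characteristic] : MulAut Γ →* MulAut (Γ ⧸ K) where
  toFun φ := QuotientGroup.congr K K φ (Subgroup.characteristic_iff_map_eq.1 hK φ)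
  map_one' := by
    ext x
    obtain ⟨x, rfl⟩ := QuotientGroup.mk_surjective x
    rfl
  map_mul' φ ψ := by
    ext x
    obtain ⟨x, rfl⟩ := QuotientGroup.mk_surjective x
    rfl

theorem act_mk (K : Subgroup Γ) [K.Characteristic] (φ : MulAut Γ) (x : Γ) :
    act K φ (x : Γ ⧸ K) = ((φ x : Γ) : Γ ⧸ K) := rfl

theorem mem_ker_act (K : Subgroup Γ) [K.Characteristic] (φ : MulAut Γ) :
    φ ∈ (act K).ker ↔ ∀ x : Γ, x⁻¹ * φ x ∈ K := by
  rw [MonoidHom.mem_ker]
  constructor
  · intro h x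
    have h1 := congrArg (fun σ : MulAut (Γ ⧸ K) => σ (x : Γ ⧸ K)) h
    exact (QuotientGroup.eq.1 (show ((x : Γ) : Γ ⧸ K) = ((φ x : Γ) : Γ ⧸ K) from h1.symm))
  · intro h
    ext x
    obtain ⟨x, rfl⟩ := QuotientGroup.mk_surjective x
    rw [act_mk, MulAut.one_apply]
    exact (QuotientGroup.eq.2 (h x)).symm

end act

section fin

variable {F : Type u} [Group F] [Finite F]

theorem fixed_in_coset (L : Subgroup F) {p q : ℕ} (hp : p.Prime) (hq : q.Prime) (hpq : q ≠ p)
    (hL : IsPGroup p L) (θ : MulAut F) (hθ : θ ^ q = 1) (h : ∀ x, x⁻¹ * θ x ∈ L) (x : F) :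
    ∃ l ∈ L, θ (x * l) = x * l := by
  classical
  haveI := Fact.mk hp
  haveI := Fact.mk hq
  haveI : Fintype F := Fintype.ofFinite F
  let α := {y : F // x⁻¹ * y ∈ L}
  let f : Function.End α := fun y => ⟨θ y.1, by
    have h1 := L.mul_mem y.2 (h y.1)
    rwa [mul_assoc, mul_inv_cancel_left] at h1⟩
  have hit : ∀ (n : ℕ) (y : α), ((f ^ n : Function.End α) y).1 = (θ ^ n) y.1 := by
    intro n
    induction n with
    | zero => intro y; rfl
    | succ n ih =>
      intro y
      have h1 : (f ^ (n + 1) : Function.End α) y = (f ^ n : Function.End α) (f y) := by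
        rw [pow_succ]
        rfl
      rw [h1, ih, pow_succ]
      rfl
  have hf : f ^ q ^ 1 = 1 := by
    rw [pow_one]
    funext y
    apply Subtype.ext
    rw [hit, hθ]
    rfl
  have h1 := Equiv.Perm.card_fixedPoints_modEq hf
  have hcard : Fintype.card α = Nat.card L := by
    rw [← Nat.card_eq_fintype_card]
    exact Nat.card_congr
      { toFun := fun y => ⟨x⁻¹ * y.1, y.2⟩
        invFun := fun l => ⟨x * l.1, by rw [inv_mul_cancel_left]; exact l.2⟩
        left_inv := fun y => Subtype.ext (mul_inv_cancel_left _ _)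
        right_inv := fun l => Subtype.ext (inv_mul_cancel_left _ _) }
  obtain ⟨b, hb⟩ := (IsPGroup.iff_card).1 hL
  rw [hcard, hb] at h1
  by_cases he : IsEmpty f.fixedPoints
  · exfalso
    rw [Fintype.card_eq_zero] at h1
    have h2 : q ∣ p ^ b := (Nat.modEq_zero_iff_dvd).1 h1
    have h3 := hq.dvd_of_dvd_pow h2
    exact hpq ((Nat.prime_dvd_prime_iff_eq hq hp).1 h3)
  · rw [not_isEmpty_iff] at he
    obtain ⟨⟨y, hy⟩⟩ := he
    refine ⟨x⁻¹ * y.1, y.2, ?_⟩
    rw [mul_inv_cancel_left]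
    have h2 : f y = y := hy
    exact congrArg Subtype.val h2

theorem trivial_of_frattini (P L : Subgroup F) (hLP : L ≤ P) {p q : ℕ} (hp : p.Prime)
    (hq : q.Prime) (hpq : q ≠ p) (hP : IsPGroup p P)
    (hmax : ∀ K : Subgroup F, K ≤ P → K.relIndex P = p → L ≤ K)
    (θ : MulAut F) (hθ : θ ^ q = 1) (h : ∀ x, x⁻¹ * θ x ∈ L) : θ = 1 := by
  classical
  haveI := Fact.mk hp
  have hL : IsPGroup p L := hP.to_le hLP
  have hfix := fixed_in_coset L hp hq hpq hL θ hθ h
  let C : Subgroup F :=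
    { carrier := {y | θ y = y}
      one_mem' := map_one θ
      mul_mem' := by
        intro a b ha hb
        change θ (a * b) = a * b
        rw [map_mul]
        rw [show θ a = a from ha, show θ b = b from hb]
      inv_mem' := by
        intro a ha
        change θ a⁻¹ = a⁻¹
        rw [map_inv, show θ a = a from ha] }
  have hPC : P ≤ C := by
    by_contra hne
    obtain ⟨e, he⟩ := (IsPGroup.iff_card).1 hP
    have hD : C.subgroupOf P ≠ ⊤ := by
      rw [Ne, Subgroup.subgroupOf_eq_top]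
      exact hne
    obtain ⟨n, hn⟩ := (IsPGroup.iff_card).1 (hP.to_subgroup (C.subgroupOf P))
    have hcd : Nat.card (C.subgroupOf P) < Nat.card P := by
      refine lt_of_le_of_ne (Nat.le_of_dvd Nat.card_pos (Subgroup.card_subgroup_dvd_card _)) ?_
      intro h1
      exact hD (Subgroup.eq_top_of_card_eq _ h1)
    have hne2 : n < e := by
      rw [hn, he] at hcd
      exact (Nat.pow_lt_pow_iff_right hp.one_lt).1 hcd
    obtain ⟨K, hK, hDK⟩ := Sylow.exists_subgroup_card_pow_prime_le (p := p) (n := n) (m := e - 1)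
      (G := P) (by rw [he]; exact pow_dvd_pow _ (by omega)) (C.subgroupOf P) hn (by omega)
    have hKi : K.index = p := by
      have h1 := K.card_mul_index
      rw [hK, he] at h1
      have h2 : p ^ e = p ^ (e - 1) * p := by
        rw [← pow_succ]
        congr 1
        omega
      rw [h2] at h1
      exact Nat.eq_of_mul_eq_mul_left (pow_pos hp.pos _) h1
    have hKm : (K.map P.subtype).subgroupOf P = K := by
      rw [Subgroup.subgroupOf, Subgroup.comap_map_eq_self_of_injective P.subtype_injective]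
    have h1 : L ≤ K.map P.subtype := by
      apply hmax
      · rintro _ ⟨y, _, rfl⟩
        exact y.2
      · rw [Subgroup.relIndex, hKm, hKi]
    have h2 : K = ⊤ := by
      rw [eq_top_iff]
      intro x _
      obtain ⟨l, hl, hxl⟩ := hfix x
      have h3 : (x : F) * l ∈ P := P.mul_mem x.2 (hLP hl)
      have h4 : (⟨(x : F) * l, h3⟩ : P) ∈ K := hDK (by
        rw [Subgroup.mem_subgroupOf]
        exact hxl)
      have h5 : (x : F) * l ∈ K.map P.subtype := ⟨_, h4, rfl⟩
      have h6 : (x : F) ∈ K.map P.subtype := by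
        have := (K.map P.subtype).mul_mem h5 ((K.map P.subtype).inv_mem (h1 hl))
        rwa [mul_inv_cancel_right] at this
      have h7 : x ∈ (K.map P.subtype).subgroupOf P := by
        rw [Subgroup.mem_subgroupOf]
        exact h6
      rwa [hKm] at h7
    rw [h2, Subgroup.index_top] at hKi
    exact hp.one_lt.ne hKi
  ext x
  obtain ⟨l, hl, hxl⟩ := hfix x
  have h1 : l ∈ C := hPC (hLP hl)
  have h2 : x * l ∈ C := hxl
  have h3 := C.mul_mem h2 (C.inv_mem h1)
  rw [mul_inv_cancel_right] at h3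
  exact h3

end fin

theorem RP.aut {p : ℕ} (hp : p.Prime) {Γ : Type u} [Group Γ] [Group.FG Γ] (hΓ : RP p Γ) :
    RP p (MulAut Γ) := by
  classical
  obtain ⟨N, hNn, hNf, hsep⟩ := hΓ
  set N' := core Γ N.index with hN'
  have hN'N : N' ≤ N := core_le Γ hNf.index_ne_zero N rfl
  have hN'f : N'.FiniteIndex := core_fi Γ _
  have hN'c : N'.Characteristic := core_char Γ _
  set L := core Γ (N'.index * p) ⊓ N' with hL
  have hcf : (core Γ (N'.index * p)).FiniteIndex := core_fi Γ _
  have hLf : L.FiniteIndex := by rw [hL]; infer_instance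
  have hLc : L.Characteristic := by
    rw [Subgroup.characteristic_iff_map_le]
    intro φ
    rw [hL]
    refine (Subgroup.map_inf_le _ _ _).trans ?_
    exact inf_le_inf (Subgroup.characteristic_iff_map_le.1 (core_char Γ _) φ)
      (Subgroup.characteristic_iff_map_le.1 hN'c φ)
  have hfinL : Finite (Γ ⧸ L) := Subgroup.finite_quotient_of_finiteIndex
  have hfinML : Finite (MulAut (Γ ⧸ L)) :=
    Finite.of_injective (fun σ : MulAut (Γ ⧸ L) => (σ : Γ ⧸ L → Γ ⧸ L)) DFunLike.coe_injective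
  refine ⟨(act L).ker, inferInstance, inferInstance, ?_⟩
  intro φ hφ
  obtain ⟨x, hx⟩ : ∃ x, φ x ≠ x := by
    by_contra hcon
    push Not at hcon
    exact hφ (MulEquiv.ext hcon)
  obtain ⟨K, hKn, hKf, ⟨e, he⟩, hgK⟩ := hsep (x⁻¹ * φ x) (by
    intro h1
    exact hx (inv_mul_eq_one.1 h1).symm)
  let Kc : Subgroup Γ := (⨅ ψ : MulAut Γ, K.comap ψ.toMonoidHom) ⊓ N'
  have hmem : ∀ y, y ∈ Kc ↔ (∀ ψ : MulAut Γ, ψ y ∈ K) ∧ y ∈ N' := by
    intro y
    rw [Subgroup.mem_inf, Subgroup.mem_iInf]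
    rfl
  have hKcc : Kc.Characteristic := by
    rw [Subgroup.characteristic_iff_map_le]
    rintro ψ _ ⟨y, hy, rfl⟩
    have hy' := (hmem y).1 hy
    refine (hmem _).2 ⟨fun χ => hy'.1 (χ * ψ), ?_⟩
    exact Subgroup.characteristic_iff_map_le.1 hN'c ψ ⟨y, hy'.2, rfl⟩
  have hcK : (core Γ K.index).FiniteIndex := core_fi Γ _
  have hKcf : Kc.FiniteIndex := by
    have h1 : core Γ K.index ⊓ N' ≤ Kc := by
      intro y hy
      refine (hmem y).2 ⟨fun ψ => ?_, hy.2⟩
      apply core_le Γ hKf.index_ne_zero K rfl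
      exact Subgroup.characteristic_iff_map_le.1 (core_char Γ _) ψ ⟨y, hy.1, rfl⟩
    exact Subgroup.finiteIndex_of_le h1
  have hfinK : Finite (Γ ⧸ Kc) := Subgroup.finite_quotient_of_finiteIndex
  have hfinMK : Finite (MulAut (Γ ⧸ Kc)) :=
    Finite.of_injective (fun σ : MulAut (Γ ⧸ Kc) => (σ : Γ ⧸ Kc → Γ ⧸ Kc)) DFunLike.coe_injective
  refine ⟨(act Kc).ker, inferInstance, inferInstance, ⟨Nat.card (MulAut (Γ ⧸ Kc)), ?_⟩, ?_⟩
  swap
  · intro h1
    have h2 := ((mem_ker_act Kc φ).1 h1 x)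
    have h3 := ((hmem _).1 h2).1 1
    exact hgK h3
  -- the action of the congruence subgroup is by p-elements
  set π := QuotientGroup.mk' Kc with hπ
  have hπs : Function.Surjective π := QuotientGroup.mk'_surjective Kc
  have hKcN : Kc ≤ N' := inf_le_right
  have hP : IsPGroup p (N'.map π) := by
    rintro ⟨_, y, hy, rfl⟩
    refine ⟨e, Subtype.ext ?_⟩
    change (π y) ^ p ^ e = 1
    rw [← map_pow]
    refine (QuotientGroup.eq_one_iff _).2 ?_
    refine (hmem _).2 ⟨fun ψ => ?_, N'.pow_mem hy _⟩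
    rw [map_pow]
    exact he _ (hN'N (Subgroup.characteristic_iff_map_le.1 hN'c ψ ⟨y, hy, rfl⟩))
  have hLP : L.map π ≤ N'.map π := Subgroup.map_mono inf_le_right
  have hmax : ∀ Q : Subgroup (Γ ⧸ Kc), Q ≤ N'.map π → Q.relIndex (N'.map π) = p →
      L.map π ≤ Q := by
    intro Q hQ hQi
    rw [Subgroup.map_le_iff_le_comap]
    refine le_trans inf_le_left ?_
    apply core_le Γ (Nat.mul_ne_zero hN'f.index_ne_zero hp.ne_zero)
    rw [Subgroup.index_comap_of_surjective Q hπs, ← Subgroup.relIndex_mul_index hQ, hQi,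
      mul_comm]
    congr 1
    rw [Subgroup.index_map_eq N' hπs]
    rw [QuotientGroup.ker_mk']
    exact hKcN
  intro ψ hψ
  have hpow : ∃ k, orderOf (act Kc ψ) = p ^ k := by
    refine ⟨_, Nat.eq_prime_pow_of_unique_prime_dvd (orderOf_pos _).ne' ?_⟩
    intro q hq hqd
    by_contra hne
    have hθ : act Kc (ψ ^ (orderOf (act Kc ψ) / q)) = 1 := by
      apply trivial_of_frattini (N'.map π) (L.map π) hLP hp hq hne hP hmax
      · rw [map_pow, ← pow_mul, Nat.div_mul_cancel hqd, pow_orderOf_eq_one]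
      · intro y
        obtain ⟨y, rfl⟩ := hπs y
        refine ⟨y⁻¹ * (ψ ^ (orderOf (act Kc ψ) / q)) y, ?_, ?_⟩
        · exact (mem_ker_act L _).1 ((act L).ker.pow_mem hψ _) y
        · rfl
    rw [map_pow] at hθ
    have h1 := orderOf_dvd_of_pow_eq_one hθ
    have h2 := Nat.le_of_dvd (Nat.div_pos (Nat.le_of_dvd (orderOf_pos _) hqd) hq.pos) h1
    have h3 := Nat.div_lt_self (orderOf_pos (act Kc ψ)) hq.one_lt
    omega
  obtain ⟨k, hk⟩ := hpow
  have hle : k ≤ Nat.card (MulAut (Γ ⧸ Kc)) := by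
    have h1 : p ^ k ∣ Nat.card (MulAut (Γ ⧸ Kc)) := hk ▸ orderOf_dvd_natCard _
    exact (Nat.lt_pow_self hp.one_lt).le.trans (Nat.le_of_dvd Nat.card_pos h1)
  rw [MonoidHom.mem_ker, map_pow]
  apply orderOf_dvd_iff_pow_eq_one.1
  rw [hk]
  exact pow_dvd_pow _ hle

end Pool.Agent.TH107.LB
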