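import Pool.Agent.TH107.LB.Aut
import Pool.Agent.TH107.RF.Base

set_option autoImplicit false

/-!
Finitely generated linear groups over fields of characteristic zero are virtually residually a
finite p-group for almost all primes p.
-/

namespace Pool.Agent.TH107.LB

universe u v

section ring

theorem nonunit_aux {A : Type u} [CommRing A] {K : Type v} [Field K] [CharZero K]
    (alg : Algebra ℚ K) (_ : Algebra.FiniteType ℚ K) (φ : A →+* K) (s : Finset A)
    (hs : Algebra.adjoin ℤ (s : Set A) = ⊤) :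
    ∃ N : ℕ, N ≠ 0 ∧ ∀ p : ℕ, p.Prime → ¬ p ∣ N → ¬ IsUnit (p : A) := by
  classical
  haveI h1 : Module.Finite ℚ K := finite_of_finite_type_of_isJacobsonRing ℚ K
  haveI hal : Algebra.IsAlgebraic ℤ K := by
    have h2 : Algebra.IsAlgebraic ℚ K := Algebra.IsAlgebraic.of_finite ℚ K
    exact (IsFractionRing.comap_isAlgebraic_iff (A := ℤ) (K := ℚ) (C := K)).2 h2
  obtain ⟨y, hy0, hy⟩ := Algebra.IsAlgebraic.exists_integral_multiples ℤ (s.image φ)
  have hint : ∀ a : A, ∃ k : ℕ, IsIntegral ℤ (((y : ℤ) : K) ^ k * φ a) := by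
    intro a
    have ha : a ∈ Algebra.adjoin ℤ (s : Set A) := by rw [hs]; trivial
    have hyi : IsIntegral ℤ ((y : ℤ) : K) := by
      have := isIntegral_algebraMap (R := ℤ) (A := K) (x := y)
      simpa using this
    induction ha using Algebra.adjoin_induction with
    | mem x hx =>
      refine ⟨1, ?_⟩
      have h2 := hy (φ x) (Finset.mem_image_of_mem _ hx)
      rw [zsmul_eq_mul] at h2
      rw [pow_one]
      exact h2
    | algebraMap r =>
      refine ⟨0, ?_⟩
      rw [pow_zero, one_mul]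
      have h2 : φ (algebraMap ℤ A r) = algebraMap ℤ K r := by
        simp
      rw [h2]
      exact isIntegral_algebraMap
    | add a b _ _ ha hb =>
      obtain ⟨k, hk⟩ := ha
      obtain ⟨l, hl⟩ := hb
      refine ⟨k + l, ?_⟩
      have h2 : ((y : ℤ) : K) ^ (k + l) * φ (a + b) =
          ((y : ℤ) : K) ^ l * (((y : ℤ) : K) ^ k * φ a) +
          ((y : ℤ) : K) ^ k * (((y : ℤ) : K) ^ l * φ b) := by
        rw [map_add, pow_add]; ring
      rw [h2]
      exact ((hyi.pow l).mul hk).add ((hyi.pow k).mul hl)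
    | mul a b _ _ ha hb =>
      obtain ⟨k, hk⟩ := ha
      obtain ⟨l, hl⟩ := hb
      refine ⟨k + l, ?_⟩
      have h2 : ((y : ℤ) : K) ^ (k + l) * φ (a * b) =
          (((y : ℤ) : K) ^ k * φ a) * (((y : ℤ) : K) ^ l * φ b) := by
        rw [map_mul, pow_add]; ring
      rw [h2]
      exact hk.mul hl
  refine ⟨y.natAbs, Int.natAbs_ne_zero.2 hy0, ?_⟩
  intro p hp hpy hu
  obtain ⟨b, hb⟩ := hu.exists_right_inv
  obtain ⟨k, hk⟩ := hint b
  have hp0 : ((p : ℕ) : K) ≠ 0 := by exact_mod_cast hp.ne_zero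
  have h2 : φ b = ((p : ℕ) : K)⁻¹ := by
    have h3 := congrArg φ hb
    rw [map_mul, map_one, map_natCast] at h3
    exact eq_inv_of_mul_eq_one_right h3
  have h3 : ((y : ℤ) : K) ^ k * φ b = algebraMap ℚ K ((y : ℚ) ^ k / p) := by
    rw [h2, map_div₀, map_pow, map_intCast, map_natCast, div_eq_mul_inv]
  rw [h3, isIntegral_algebraMap_iff (algebraMap ℚ K).injective] at hk
  obtain ⟨c, hc⟩ := (IsIntegrallyClosed.isIntegral_iff (R := ℤ) (K := ℚ)).1 hk
  have h4 : (c : ℚ) * p = (y : ℚ) ^ k := by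
    have hpq : (p : ℚ) ≠ 0 := by exact_mod_cast hp.ne_zero
    have h5 : (c : ℚ) = (y : ℚ) ^ k / p := by simpa using hc
    rw [h5]
    field_simp
  have h5 : c * (p : ℤ) = y ^ k := by exact_mod_cast h4
  have h6 : (p : ℤ) ∣ y ^ k := ⟨c, by rw [← h5, mul_comm]⟩
  have h7 : (p : ℤ) ∣ y := (Nat.prime_iff_prime_int.1 hp).dvd_of_dvd_pow h6
  exact hpy (Int.natCast_dvd.1 h7)

theorem nonunit_primes (A : Type u) [CommRing A] [IsDomain A] [CharZero A]
    [Algebra.FiniteType ℤ A] :
    ∃ N : ℕ, N ≠ 0 ∧ ∀ p : ℕ, p.Prime → ¬ p ∣ N → ¬ IsUnit (p : A) := by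
  classical
  let F := FractionRing A
  haveI : CharZero F := charZero_of_injective_algebraMap (IsFractionRing.injective A F)
  letI : Algebra ℚ F := DivisionRing.toRatAlgebra
  obtain ⟨s, hs⟩ := (Algebra.FiniteType.out : (⊤ : Subalgebra ℤ A).FG)
  let B : Subalgebra ℚ F := Algebra.adjoin ℚ ((s.image (algebraMap A F) : Finset F) : Set F)
  haveI hBf : Algebra.FiniteType ℚ B := by
    rw [← Subalgebra.fg_iff_finiteType]
    exact ⟨_, rfl⟩
  obtain ⟨M, hM⟩ := Ideal.exists_maximal B
  letI : Field (B ⧸ M) := Ideal.Quotient.field M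
  haveI h0 : Algebra.FiniteType ℚ (B ⧸ M) :=
    Algebra.FiniteType.of_surjective (Ideal.Quotient.mkₐ ℚ M) Ideal.Quotient.mk_surjective
  have hmem : ∀ a : A, algebraMap A F a ∈ B := by
    intro a
    have ha : a ∈ Algebra.adjoin ℤ (s : Set A) := by rw [hs]; trivial
    induction ha using Algebra.adjoin_induction with
    | mem x hx =>
      apply Algebra.subset_adjoin
      rw [Finset.coe_image]
      exact ⟨x, hx, rfl⟩
    | algebraMap r =>
      have h2 : algebraMap A F (algebraMap ℤ A r) = algebraMap ℚ F (r : ℚ) := by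
        simp
      rw [h2]
      exact B.algebraMap_mem _
    | add x y _ _ hx hy => rw [map_add]; exact B.add_mem hx hy
    | mul x y _ _ hx hy => rw [map_mul]; exact B.mul_mem hx hy
  let θ : A →+* B := (algebraMap A F).codRestrict B hmem
  let φ : A →+* B ⧸ M := (Ideal.Quotient.mk M).comp θ
  haveI : CharZero (B ⧸ M) := algebraRat.charZero _
  exact nonunit_aux (K := B ⧸ M) _ h0 φ s hs

end ring

section mat

variable {A : Type u} [CommRing A] {n : ℕ}

/-- matrices with entries in a power of an ideal -/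
def MI (m : Ideal A) (i : ℕ) (X : Matrix (Fin n) (Fin n) A) : Prop := ∀ a b, X a b ∈ m ^ i

lemma MI.mul {m : Ideal A} {i j : ℕ} {X Y : Matrix (Fin n) (Fin n) A} (hX : MI m i X)
    (hY : MI m j Y) : MI m (i + j) (X * Y) := by
  intro a b
  rw [Matrix.mul_apply, pow_add]
  exact Ideal.sum_mem _ fun k _ => Ideal.mul_mem_mul (hX a k) (hY k b)

lemma MI.sum {m : Ideal A} {i : ℕ} {ι : Type*} (s : Finset ι)
    (X : ι → Matrix (Fin n) (Fin n) A) (hX : ∀ k ∈ s, MI m i (X k)) : MI m i (∑ k ∈ s, X k) := by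
  intro a b
  rw [Matrix.sum_apply]
  exact Ideal.sum_mem _ fun k hk => hX k hk a b

lemma MI.pow_sub {m : Ideal A} {i : ℕ} {Y : Matrix (Fin n) (Fin n) A} (hY : MI m i (Y - 1))
    (k : ℕ) : MI m i (Y ^ k - 1) := by
  induction k with
  | zero => intro a b; simp
  | succ k ih =>
    have h1 : Y ^ (k + 1) - 1 = Y ^ k * (Y - 1) + (Y ^ k - 1) := by
      rw [pow_succ]; noncomm_ring
    rw [h1]
    intro a b
    rw [Matrix.add_apply]
    have h2 : MI m (0 + i) (Y ^ k * (Y - 1)) :=
      MI.mul (m := m) (i := 0) (j := i) (fun _ _ => by simp) hY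
    rw [zero_add] at h2
    exact Ideal.add_mem _ (h2 a b) (ih a b)

lemma MI.pow_p {m : Ideal A} {p : ℕ} (hp : (p : A) ∈ m) {i : ℕ} (hi : 1 ≤ i)
    {Y : Matrix (Fin n) (Fin n) A} (hY : MI m i (Y - 1)) : MI m (i + 1) (Y ^ p - 1) := by
  have h1 : Y ^ p - 1 = (Y - 1) * ∑ k ∈ Finset.range p, Y ^ k := (mul_geom_sum Y p).symm
  rw [h1]
  apply MI.mul hY
  have h2 : ∑ k ∈ Finset.range p, Y ^ k = ∑ k ∈ Finset.range p, (Y ^ k - 1) +
      (p : Matrix (Fin n) (Fin n) A) := by
    rw [Finset.sum_sub_distrib]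
    simp
  rw [h2]
  intro a b
  rw [Matrix.add_apply, pow_one]
  refine Ideal.add_mem _ ?_ ?_
  · have h3 : MI m 1 (∑ k ∈ Finset.range p, (Y ^ k - 1)) := by
      apply MI.sum
      intro k _ a b
      exact Ideal.pow_le_pow_right hi (hY.pow_sub k a b)
    have h4 := h3 a b
    rwa [pow_one] at h4
  · rw [Matrix.natCast_apply]
    split_ifs
    · exact hp
    · rw [Nat.cast_zero]
      exact m.zero_mem

lemma MI.pow_pe {m : Ideal A} {p : ℕ} (hp : (p : A) ∈ m)
    {Y : Matrix (Fin n) (Fin n) A} (hY : MI m 1 (Y - 1)) (e : ℕ) :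
    MI m (e + 1) (Y ^ p ^ e - 1) := by
  induction e with
  | zero => simpa using hY
  | succ e ih =>
    rw [pow_succ, pow_mul]
    exact MI.pow_p hp (by omega) ih

end mat

lemma krull {A : Type u} [CommRing A] [IsDomain A] [IsNoetherianRing A] {m : Ideal A}
    (hm : m ≠ ⊤) {c : A} (hc : c ≠ 0) : ∃ j : ℕ, c ∉ m ^ j := by
  have hkrull := Ideal.iInf_pow_eq_bot_of_isDomain m hm
  by_contra hcon
  push Not at hcon
  apply hc
  have : c ∈ (⨅ i : ℕ, m ^ i) := by
    rw [Ideal.mem_iInf]; exact hcon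
  rw [hkrull] at this
  exact this

section lin

variable {Γ : Type v} [Group Γ] {A : Type u} [CommRing A] {n : ℕ}

/-- a faithful matrix representation over a noetherian domain with a finite residue field of
characteristic p -/
theorem RP.of_rep [IsDomain A] [IsNoetherianRing A] (ρ : Γ →* Matrix (Fin n) (Fin n) A)
    (hρ : Function.Injective ρ) (m : Ideal A) (hm : m ≠ ⊤) [hfin : Finite (A ⧸ m)] (p : ℕ)
    (hpm : (p : A) ∈ m) : RP p Γ := by
  classical
  have hker : ∀ j : ℕ, ∃ K : Subgroup Γ, K.Normal ∧ (Finite (A ⧸ m ^ j) → K.FiniteIndex) ∧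
      ∀ g, g ∈ K ↔ MI m j (ρ g - 1) := by
    intro j
    let q : A →+* A ⧸ m ^ j := Ideal.Quotient.mk (m ^ j)
    let f : Γ →* Matrix (Fin n) (Fin n) (A ⧸ m ^ j) :=
      (q.mapMatrix : Matrix (Fin n) (Fin n) A →+* Matrix (Fin n) (Fin n) (A ⧸ m ^ j)).toMonoidHom.comp ρ
    refine ⟨f.toHomUnits.ker, inferInstance, ?_, ?_⟩
    · intro hf
      haveI : Finite (Matrix (Fin n) (Fin n) (A ⧸ m ^ j)) :=
        inferInstanceAs (Finite (Fin n → Fin n → A ⧸ m ^ j))
      haveI : Finite (Matrix (Fin n) (Fin n) (A ⧸ m ^ j))ˣ := inferInstance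
      exact Subgroup.finiteIndex_ker _
    · intro g
      rw [MonoidHom.mem_ker, Units.ext_iff]
      change f g = 1 ↔ _
      constructor
      · intro h a b
        have h1 := congrFun (congrFun h a) b
        have h2 : q (ρ g a b) = q ((1 : Matrix (Fin n) (Fin n) A) a b) := by
          have h3 : (1 : Matrix (Fin n) (Fin n) (A ⧸ m ^ j)) a b =
              q ((1 : Matrix (Fin n) (Fin n) A) a b) := by
            simp only [Matrix.one_apply]
            split_ifs <;> simp
          rw [← h3]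
          exact h1
        rw [Matrix.sub_apply]
        exact Ideal.Quotient.eq.1 h2
      · intro h
        ext a b
        have h2 : q (ρ g a b) = q ((1 : Matrix (Fin n) (Fin n) A) a b) :=
          Ideal.Quotient.eq.2 (h a b)
        have h3 : (1 : Matrix (Fin n) (Fin n) (A ⧸ m ^ j)) a b =
            q ((1 : Matrix (Fin n) (Fin n) A) a b) := by
          simp only [Matrix.one_apply]
          split_ifs <;> simp
        rw [h3]
        exact h2
  obtain ⟨N, hNn, hNf, hN⟩ := hker 1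
  have hf1 : Finite (A ⧸ m ^ 1) := Ideal.finite_quotient_pow (IsNoetherian.noetherian m) 1
  refine ⟨N, hNn, hNf hf1, ?_⟩
  intro g hg
  have h1 : ρ g ≠ 1 := by
    intro h
    apply hg
    apply hρ
    rw [h, map_one]
  obtain ⟨a, b, hab⟩ : ∃ a b, (ρ g - 1) a b ≠ 0 := by
    by_contra hcon
    push Not at hcon
    apply h1
    have h2 : ρ g - 1 = 0 := by
      ext a b
      exact hcon a b
    exact sub_eq_zero.1 h2
  obtain ⟨j, hj⟩ := krull hm hab
  have hfj : Finite (A ⧸ m ^ j) := Ideal.finite_quotient_pow (IsNoetherian.noetherian m) j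
  obtain ⟨K, hKn, hKf, hK⟩ := hker j
  refine ⟨K, hKn, hKf hfj, ⟨j, ?_⟩, ?_⟩
  · intro h hh
    rw [hK, map_pow]
    intro a b
    exact Ideal.pow_le_pow_right (by omega) (MI.pow_pe hpm ((hN h).1 hh) j a b)
  · intro h2
    exact hj ((hK g).1 h2 a b)

/-- finitely generated linear groups -/
theorem RP.linear {K : Type u} [Field K] [CharZero K] {n : ℕ} (Γ : Subgroup (GL (Fin n) K))
    (hΓ : Γ.FG) : ∃ E : Finset ℕ, ∀ p : ℕ, p.Prime → p ∉ E → RP p Γ := by
  classical
  obtain ⟨S, hS⟩ := hΓ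
  let T : Finset K := S.biUnion fun g => (Finset.univ : Finset (Fin n × Fin n)).biUnion fun q =>
    {(g : Matrix (Fin n) (Fin n) K) q.1 q.2,
      ((g⁻¹ : GL (Fin n) K) : Matrix (Fin n) (Fin n) K) q.1 q.2}
  let A : Subalgebra ℤ K := Algebra.adjoin ℤ (T : Set K)
  haveI hAf : Algebra.FiniteType ℤ A := by
    rw [← Subalgebra.fg_iff_finiteType]
    exact ⟨_, rfl⟩
  haveI : CharZero A := by
    refine ⟨fun a b hab => ?_⟩
    have h1 : ((a : A) : K) = ((b : A) : K) := congrArg Subtype.val hab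
    exact Nat.cast_injective (R := K) (by simpa using h1)
  haveI : IsNoetherianRing A := Algebra.FiniteType.isNoetherianRing ℤ _
  have hent : ∀ g ∈ Γ, ∀ a b, (g : Matrix (Fin n) (Fin n) K) a b ∈ A ∧
      ((g⁻¹ : GL (Fin n) K) : Matrix (Fin n) (Fin n) K) a b ∈ A := by
    intro g hg
    rw [← hS] at hg
    induction hg using Subgroup.closure_induction with
    | mem g hg =>
      intro a b
      have h1 : ∀ c : K, c ∈ ({(g : Matrix (Fin n) (Fin n) K) a b,
          ((g⁻¹ : GL (Fin n) K) : Matrix (Fin n) (Fin n) K) a b} : Finset K) → c ∈ A := by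
        intro c hc
        apply Algebra.subset_adjoin
        exact Finset.mem_coe.2 (Finset.mem_biUnion.2 ⟨g, hg, Finset.mem_biUnion.2
          ⟨(a, b), Finset.mem_univ _, hc⟩⟩)
      exact ⟨h1 _ (by simp), h1 _ (by simp)⟩
    | one =>
      intro a b
      have h1 : (1 : Matrix (Fin n) (Fin n) K) a b ∈ A := by
        rw [Matrix.one_apply]
        split_ifs
        · exact A.one_mem
        · exact A.zero_mem
      exact ⟨by simpa using h1, by simpa using h1⟩
    | mul g h _ _ hg hh =>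
      intro a b
      constructor
      · rw [Units.val_mul, Matrix.mul_apply]
        exact A.sum_mem fun k _ => A.mul_mem (hg a k).1 (hh k b).1
      · rw [mul_inv_rev, Units.val_mul, Matrix.mul_apply]
        exact A.sum_mem fun k _ => A.mul_mem (hh a k).2 (hg k b).2
    | inv g _ hg =>
      intro a b
      exact ⟨(hg a b).2, by rw [inv_inv]; exact (hg a b).1⟩
  let tm : Γ → Matrix (Fin n) (Fin n) A := fun g => Matrix.of fun a b =>
    ⟨((g : GL (Fin n) K) : Matrix (Fin n) (Fin n) K) a b, (hent g.1 g.2 a b).1⟩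
  have htm : ∀ g a b, ((tm g a b : A) : K) =
      ((g : GL (Fin n) K) : Matrix (Fin n) (Fin n) K) a b := fun g a b => rfl
  have hone : tm 1 = 1 := by
    apply Matrix.ext
    intro a b
    apply Subtype.ext
    rw [htm, Matrix.one_apply]
    have h1 : (((1 : Γ) : GL (Fin n) K) : Matrix (Fin n) (Fin n) K) a b =
        (1 : Matrix (Fin n) (Fin n) K) a b := rfl
    rw [h1, Matrix.one_apply]
    split_ifs <;> rfl
  have hmul : ∀ g h, tm (g * h) = tm g * tm h := by
    intro g h
    apply Matrix.ext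
    intro a b
    apply Subtype.ext
    rw [htm, Matrix.mul_apply]
    have h1 : (((g * h : Γ) : GL (Fin n) K) : Matrix (Fin n) (Fin n) K) a b =
        ((((g : GL (Fin n) K) : Matrix (Fin n) (Fin n) K)) *
          (((h : GL (Fin n) K) : Matrix (Fin n) (Fin n) K))) a b := rfl
    rw [h1, Matrix.mul_apply]
    have h2 : ∀ (F : Fin n → A), ((∑ k, F k : A) : K) = ∑ k, (F k : K) := fun F =>
      map_sum A.val F Finset.univ
    rw [h2]
    rfl
  let ρ : Γ →* Matrix (Fin n) (Fin n) A :=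
    { toFun := tm
      map_one' := hone
      map_mul' := hmul }
  have hρ : Function.Injective ρ := by
    intro g h hgh
    apply Subtype.ext
    apply Units.ext
    apply Matrix.ext
    intro a b
    exact congrArg Subtype.val (congrFun (congrFun hgh a) b)
  obtain ⟨N, hN0, hN⟩ := nonunit_primes A
  refine ⟨N.primeFactors, fun p hp hpE => ?_⟩
  have hpN : ¬ p ∣ N := fun h => hpE (Nat.mem_primeFactors.2 ⟨hp, h, hN0⟩)
  obtain ⟨m, hm, hpm⟩ := Ideal.exists_le_maximal (Ideal.span {((p : ℕ) : A)})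
    (fun h => hN p hp hpN (Ideal.span_singleton_eq_top.1 h))
  have hpm' : ((p : ℕ) : A) ∈ m := hpm (Ideal.mem_span_singleton_self _)
  haveI hfin : Finite (A ⧸ m) := Pool.Agent.TH107.RF.residue_finite A m
  exact RP.of_rep ρ hρ m hm.ne_top p hpm'

end lin

end Pool.Agent.TH107.LB
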