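import Pool.Agent.TH107.LB.Lin

set_option autoImplicit false

/-!
Automorphism groups of finitely generated commutative domains are virtually residually finite
p-groups.
-/

namespace Pool.Agent.TH107.LB

universe u v

theorem finite_ringHom (A : Type u) [CommRing A] [Algebra.FiniteType ℤ A] (F : Type v)
    [CommRing F] [Finite F] : Finite (A →+* F) := by
  classical
  obtain ⟨s, hs⟩ := (Algebra.FiniteType.out : (⊤ : Subalgebra ℤ A).FG)
  have : Function.Injective (fun (f : A →+* F) (a : s) => f (a : A)) := by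
    intro f g hfg
    have h1 : f.toIntAlgHom = g.toIntAlgHom := by
      apply AlgHom.ext_of_adjoin_eq_top hs
      intro a ha
      exact congrFun hfg ⟨a, ha⟩
    ext a
    exact DFunLike.congr_fun h1 a
  exact Finite.of_injective _ this

section ideal

variable {A : Type u} [CommRing A] (J : Ideal A)

/-- automorphisms trivial modulo a power of an ideal -/
def Kr (hJ : ∀ φ : RingAut A, ∀ a ∈ J, φ a ∈ J) (n : ℕ) : Subgroup (RingAut A) where
  carrier := {φ | ∀ a, φ a - a ∈ J ^ n}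
  one_mem' := by
    intro a
    simp
  mul_mem' := by
    intro φ ψ hφ hψ a
    have h1 : (φ * ψ) a - a = (φ (ψ a) - ψ a) + (ψ a - a) := by
      rw [RingAut.mul_apply]; ring
    rw [h1]
    exact Ideal.add_mem _ (hφ _) (hψ _)
  inv_mem' := by
    intro φ hφ a
    have h1 : φ (φ⁻¹ a) = a := by
      rw [← RingAut.mul_apply, mul_inv_cancel]; rfl
    have h2 : φ⁻¹ a - a = -(φ (φ⁻¹ a) - φ⁻¹ a) := by rw [h1]; ring
    rw [h2]
    exact neg_mem (hφ _)

variable {J}

lemma mem_Kr (hJ : ∀ φ : RingAut A, ∀ a ∈ J, φ a ∈ J) (n : ℕ) (φ : RingAut A) :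
    φ ∈ Kr J hJ n ↔ ∀ a, φ a - a ∈ J ^ n := Iff.rfl

lemma pow_inv (hJ : ∀ φ : RingAut A, ∀ a ∈ J, φ a ∈ J) (n : ℕ) (φ : RingAut A) {a : A}
    (ha : a ∈ J ^ n) : φ a ∈ J ^ n := by
  have h1 : J ≤ J.comap (φ : A →+* A) := fun x hx => hJ φ x hx
  have h2 : J ^ n ≤ (J ^ n).comap (φ : A →+* A) := by
    refine le_trans (Ideal.pow_right_mono h1 n) ?_
    exact Ideal.le_comap_pow _ n
  exact h2 ha

lemma Kr_normal (hJ : ∀ φ : RingAut A, ∀ a ∈ J, φ a ∈ J) (n : ℕ) : (Kr J hJ n).Normal := by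
  constructor
  intro φ hφ ψ a
  have h0 : ψ (ψ⁻¹ a) = a := by
    rw [← RingAut.mul_apply, mul_inv_cancel]; rfl
  have h1 : (ψ * φ * ψ⁻¹) a - a = ψ (φ (ψ⁻¹ a) - ψ⁻¹ a) := by
    rw [map_sub, h0]; rfl
  rw [h1]
  exact pow_inv hJ n ψ (hφ _)

lemma Kr_fi [Algebra.FiniteType ℤ A] (hJ : ∀ φ : RingAut A, ∀ a ∈ J, φ a ∈ J) (n : ℕ)
    (hfin : Finite (A ⧸ J ^ n)) : (Kr J hJ n).FiniteIndex := by
  have h0 := finite_ringHom A (A ⧸ J ^ n)
  let r : RingAut A → (A →+* A ⧸ J ^ n) := fun φ => (Ideal.Quotient.mk (J ^ n)).comp (φ : A →+* A)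
  have hr : ∀ φ ψ : RingAut A, r φ = r ψ → φ⁻¹ * ψ ∈ Kr J hJ n := by
    intro φ ψ h a
    have h1 : Ideal.Quotient.mk (J ^ n) (φ a) = Ideal.Quotient.mk (J ^ n) (ψ a) :=
      DFunLike.congr_fun h a
    have h2 := Ideal.Quotient.eq.1 h1
    have h3 := pow_inv hJ n φ⁻¹ h2
    have h4 : φ⁻¹ (φ a) = a := by
      rw [← RingAut.mul_apply, inv_mul_cancel]; rfl
    rw [map_sub, h4] at h3
    have h5 : (φ⁻¹ * ψ) a - a = -(a - φ⁻¹ (ψ a)) := by
      rw [RingAut.mul_apply]; ring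
    rw [h5]
    exact neg_mem h3
  have h1 : Finite (RingAut A ⧸ Kr J hJ n) := by
    apply Finite.of_injective (fun q : RingAut A ⧸ Kr J hJ n => r q.out)
    intro q q' h
    have h2 := hr _ _ h
    rw [← q.out_eq', ← q'.out_eq']
    exact QuotientGroup.eq.2 h2
  exact Subgroup.finiteIndex_of_finite_quotient

/-- filtration property -/
def Lv (J : Ideal A) (i : ℕ) (φ : RingAut A) : Prop := ∀ k, ∀ a ∈ J ^ k, φ a - a ∈ J ^ (k + i)

lemma Lv_one {φ : RingAut A} (h : ∀ a, φ a - a ∈ J ^ 2) : Lv J 1 φ := by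
  intro k
  induction k with
  | zero =>
    intro a _
    exact Ideal.pow_le_pow_right (by omega) (h a)
  | succ k ih =>
    intro a ha
    rw [pow_succ] at ha
    refine Submodule.mul_induction_on ha ?_ ?_
    · intro x hx y hy
      have h1 : φ (x * y) - x * y = (φ x - x) * φ y + x * (φ y - y) := by
        rw [map_mul]; ring
      rw [h1]
      refine Ideal.add_mem _ ?_ ?_
      · have h2 : φ y ∈ J := by
          have h3 : φ y = (φ y - y) + y := by ring
          rw [h3]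
          refine Ideal.add_mem _ ?_ hy
          exact Ideal.pow_le_self (by omega) (h y)
        have h4 := Ideal.mul_mem_mul (ih x hx) h2
        rw [← pow_succ] at h4
        exact h4
      · have h4 := Ideal.mul_mem_mul hx (h y)
        rw [← pow_add] at h4
        exact h4
    · intro x y hx hy
      have h1 : φ (x + y) - (x + y) = (φ x - x) + (φ y - y) := by rw [map_add]; ring
      rw [h1]
      exact Ideal.add_mem _ hx hy

lemma Lv_pow {i : ℕ} {φ : RingAut A} (h : Lv J i φ) (j : ℕ) : Lv J i (φ ^ j) := by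
  induction j with
  | zero => intro k a _; simp
  | succ j ih =>
    intro k a ha
    have h1 : (φ ^ (j + 1)) a - a = ((φ ^ j) (φ a) - φ a) + (φ a - a) := by
      rw [pow_succ, RingAut.mul_apply]; ring
    rw [h1]
    refine Ideal.add_mem _ (ih k _ ?_) (h k a ha)
    have h3 : φ a = (φ a - a) + a := by ring
    rw [h3]
    exact Ideal.add_mem _ (Ideal.pow_le_pow_right (by omega) (h k a ha)) ha

lemma Lv_p {p : ℕ} (hp : (p : A) ∈ J) {i : ℕ} (hi : 1 ≤ i) {φ : RingAut A} (h : Lv J i φ) :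
    Lv J (i + 1) (φ ^ p) := by
  intro k a ha
  set S := ∑ j ∈ Finset.range p, (φ ^ j) a with hS
  have h1 : ∀ q : ℕ, (φ ^ q) a - a = φ (∑ j ∈ Finset.range q, (φ ^ j) a) -
      ∑ j ∈ Finset.range q, (φ ^ j) a := by
    intro q
    induction q with
    | zero => simp
    | succ q ih =>
      rw [Finset.sum_range_succ, map_add, pow_succ', RingAut.mul_apply]
      have e1 : φ (∑ j ∈ Finset.range q, (φ ^ j) a) =
          ((φ ^ q) a - a) + ∑ j ∈ Finset.range q, (φ ^ j) a := by rw [ih]; ring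
      rw [e1]; ring
  rw [h1 p, ← hS]
  have h2 : S ∈ J ^ (k + 1) := by
    have e1 : S = ∑ j ∈ Finset.range p, ((φ ^ j) a - a) + (p : A) * a := by
      rw [Finset.sum_sub_distrib, hS]
      simp
    rw [e1]
    refine Ideal.add_mem _ (Ideal.sum_mem _ fun j _ => ?_) ?_
    · exact Ideal.pow_le_pow_right (by omega) (Lv_pow h j k a ha)
    · rw [pow_succ, mul_comm (p : A) a]
      exact Ideal.mul_mem_mul ha hp
  have h3 := h (k + 1) S h2
  have e2 : k + (i + 1) = k + 1 + i := by ring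
  rw [e2]
  exact h3

lemma Lv_pe {p : ℕ} (hp : (p : A) ∈ J) {φ : RingAut A} (h : Lv J 1 φ) (e : ℕ) :
    Lv J (e + 1) (φ ^ p ^ e) := by
  induction e with
  | zero => simpa using h
  | succ e ih =>
    rw [pow_succ, pow_mul]
    exact Lv_p hp (by omega) ih

end ideal

theorem RP.ringAut (A : Type u) [CommRing A] [IsDomain A] [Algebra.FiniteType ℤ A] {p : ℕ}
    (hp : p.Prime) (hpA : ¬ IsUnit (p : A)) : RP p (RingAut A) := by
  classical
  haveI : IsNoetherianRing A := Algebra.FiniteType.isNoetherianRing ℤ _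
  obtain ⟨m, hm, hpm⟩ := Ideal.exists_le_maximal (Ideal.span {((p : ℕ) : A)})
    (fun h => hpA (Ideal.span_singleton_eq_top.1 h))
  have hpm' : ((p : ℕ) : A) ∈ m := hpm (Ideal.mem_span_singleton_self _)
  haveI hfin : Finite (A ⧸ m) := Pool.Agent.TH107.RF.residue_finite A m
  haveI hfh : Finite (A →+* A ⧸ m) := finite_ringHom A (A ⧸ m)
  let Φ : A →+* ((A →+* A ⧸ m) → A ⧸ m) := Pi.ringHom fun f => f
  let J : Ideal A := RingHom.ker Φ
  have hmem : ∀ a, a ∈ J ↔ ∀ f : A →+* A ⧸ m, f a = 0 := by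
    intro a
    rw [RingHom.mem_ker]
    exact ⟨fun h f => congrFun h f, fun h => funext h⟩
  have hJm : J ≤ m := fun a ha => Ideal.Quotient.eq_zero_iff_mem.1 ((hmem a).1 ha _)
  have hJt : J ≠ ⊤ := fun h => hm.ne_top (top_le_iff.1 (h ▸ hJm))
  have hpJ : (p : A) ∈ J := by
    rw [hmem]
    intro f
    rw [map_natCast]
    have h1 : Ideal.Quotient.mk m (p : A) = 0 := Ideal.Quotient.eq_zero_iff_mem.2 hpm'
    rwa [map_natCast] at h1
  have hJ : ∀ φ : RingAut A, ∀ a ∈ J, φ a ∈ J := by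
    intro φ a ha
    rw [hmem] at ha ⊢
    intro f
    exact ha (f.comp (φ : A →+* A))
  haveI hfJ : Finite (A ⧸ J) := Finite.of_injective _ (RingHom.kerLift_injective Φ)
  have hfp : ∀ n, Finite (A ⧸ J ^ n) := fun n =>
    Ideal.finite_quotient_pow (IsNoetherian.noetherian J) n
  refine ⟨Kr J hJ 2, Kr_normal hJ 2, Kr_fi hJ 2 (hfp 2), fun φ hφ => ?_⟩
  obtain ⟨a, ha⟩ : ∃ a, φ a - a ≠ 0 := by
    by_contra hcon
    push Not at hcon
    exact hφ (RingEquiv.ext fun a => sub_eq_zero.1 (hcon a))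
  obtain ⟨j, hj⟩ := krull hJt ha
  refine ⟨Kr J hJ j, Kr_normal hJ j, Kr_fi hJ j (hfp j), ⟨j, fun ψ hψ => ?_⟩, fun h => hj (h a)⟩
  intro c
  have h1 := Lv_pe hpJ (Lv_one hψ) j 0 c (by simp)
  exact Ideal.pow_le_pow_right (by omega) h1

end Pool.Agent.TH107.LB
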