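import Pool.Agent.TH107.LB.RA

set_option autoImplicit false

/-!
Automorphism groups of finitely generated commutative rings are virtually residually finite
p-groups, provided that p is not invertible modulo any associated prime.
-/

namespace Pool.Agent.TH107.LB

universe u v

theorem krull_assoc {A : Type u} [CommRing A] [IsNoetherianRing A] {J : Ideal A}
    (hJ : ∀ P ∈ associatedPrimes A A, J ⊔ P ≠ ⊤) {c : A} (hc : c ≠ 0) : ∃ j : ℕ, c ∉ J ^ j := by
  by_contra hcon
  push Not at hcon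
  have h1 : c ∈ (⨅ i : ℕ, J ^ i • ⊤ : Submodule A A) := by
    rw [Submodule.mem_iInf]
    intro i
    have h2 : (J ^ i • ⊤ : Submodule A A) = (J ^ i : Ideal A) := by
      rw [Ideal.smul_eq_mul, Ideal.mul_top]
    rw [h2]
    exact hcon i
  obtain ⟨r, hr⟩ := (J.mem_iInf_smul_pow_eq_bot_iff c).1 h1
  obtain ⟨P, hP, hcP⟩ := exists_le_isAssociatedPrime_of_isNoetherianRing A c hc
  apply hJ P hP
  rw [Ideal.eq_top_iff_one]
  have h2 : (1 - (r : A)) ∈ P := by
    apply hcP
    rw [Submodule.mem_colon_singleton]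
    have h3 : (1 - (r : A)) • c = 0 := by
      rw [sub_smul, one_smul, hr, sub_self]
    rw [h3]
    exact Submodule.zero_mem _
  have h3 : (1 : A) = (r : A) + (1 - (r : A)) := by ring
  rw [h3]
  exact Ideal.add_mem _ (Ideal.mem_sup_left r.2) (Ideal.mem_sup_right h2)

theorem RP.ringAut' (A : Type u) [CommRing A] [Algebra.FiniteType ℤ A] {p : ℕ}
    (hpA : ∀ P ∈ associatedPrimes A A, ¬ IsUnit ((p : ℕ) : A ⧸ P)) : RP p (RingAut A) := by
  classical
  haveI : IsNoetherianRing A := Algebra.FiniteType.isNoetherianRing ℤ _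
  haveI hass : Finite (associatedPrimes A A) := (associatedPrimes.finite A A).to_subtype
  have hmax : ∀ P : associatedPrimes A A, ∃ m : Ideal A, m.IsMaximal ∧ P.1 ≤ m ∧ (p : A) ∈ m := by
    intro P
    have h1 : P.1 ⊔ Ideal.span {((p : ℕ) : A)} ≠ ⊤ := by
      intro h
      apply hpA P.1 P.2
      have h2 : (1 : A) ∈ P.1 ⊔ Ideal.span {((p : ℕ) : A)} := by rw [h]; trivial
      obtain ⟨a, ha, b, hb, hab⟩ := Submodule.mem_sup.1 h2
      obtain ⟨c, rfl⟩ := Ideal.mem_span_singleton'.1 hb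
      have h3 : ((p : ℕ) : A ⧸ P.1) * Ideal.Quotient.mk P.1 c = 1 := by
        have h4 : Ideal.Quotient.mk P.1 (a + c * (p : A)) = 1 := by rw [hab, map_one]
        rw [map_add, Ideal.Quotient.eq_zero_iff_mem.2 ha, zero_add, map_mul, map_natCast,
          mul_comm] at h4
        exact h4
      exact IsUnit.of_mul_eq_one _ h3
    obtain ⟨m, hm, hle⟩ := Ideal.exists_le_maximal _ h1
    exact ⟨m, hm, le_trans le_sup_left hle,
      hle (Ideal.mem_sup_right (Ideal.mem_span_singleton_self _))⟩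
  choose m hm hPm hpm using hmax
  haveI hfin : ∀ P, Finite (A ⧸ m P) := fun P =>
    haveI := hm P
    Pool.Agent.TH107.RF.residue_finite A (m P)
  haveI hfh : ∀ P, Finite (A →+* A ⧸ m P) := fun P => finite_ringHom A (A ⧸ m P)
  let Φ : A →+* ((P : associatedPrimes A A) → (A →+* A ⧸ m P) → A ⧸ m P) :=
    Pi.ringHom fun P => Pi.ringHom fun f => f
  let J : Ideal A := RingHom.ker Φ
  have hmem : ∀ a, a ∈ J ↔ ∀ P, ∀ f : A →+* A ⧸ m P, f a = 0 := by
    intro a
    rw [RingHom.mem_ker]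
    exact ⟨fun h P f => congrFun (congrFun h P) f, fun h => funext fun P => funext fun f => h P f⟩
  have hJm : ∀ P, J ≤ m P := fun P a ha =>
    Ideal.Quotient.eq_zero_iff_mem.1 ((hmem a).1 ha P (Ideal.Quotient.mk (m P)))
  have hpJ : (p : A) ∈ J := by
    rw [hmem]
    intro P f
    rw [map_natCast]
    have h1 : Ideal.Quotient.mk (m P) (p : A) = 0 := Ideal.Quotient.eq_zero_iff_mem.2 (hpm P)
    rwa [map_natCast] at h1
  have hJ : ∀ φ : RingAut A, ∀ a ∈ J, φ a ∈ J := by
    intro φ a ha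
    rw [hmem] at ha ⊢
    intro P f
    exact ha P (f.comp (φ : A →+* A))
  haveI hfJ : Finite (A ⧸ J) := Finite.of_injective _ (RingHom.kerLift_injective Φ)
  have hfp : ∀ n, Finite (A ⧸ J ^ n) := fun n =>
    Ideal.finite_quotient_pow (IsNoetherian.noetherian J) n
  refine ⟨Kr J hJ 2, Kr_normal hJ 2, Kr_fi hJ 2 (hfp 2), fun φ hφ => ?_⟩
  obtain ⟨a, ha⟩ : ∃ a, φ a - a ≠ 0 := by
    by_contra hcon
    push Not at hcon
    exact hφ (RingEquiv.ext fun a => sub_eq_zero.1 (hcon a))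
  obtain ⟨j, hj⟩ := krull_assoc (J := J) (fun P hP h => by
    have h1 : J ⊔ P ≤ m ⟨P, hP⟩ := sup_le (hJm _) (hPm ⟨P, hP⟩)
    rw [h] at h1
    exact (hm ⟨P, hP⟩).ne_top (top_le_iff.1 h1)) ha
  refine ⟨Kr J hJ j, Kr_normal hJ j, Kr_fi hJ j (hfp j), ⟨j, fun ψ hψ => ?_⟩, fun h => hj (h a)⟩
  intro c
  have h1 := Lv_pe hpJ (Lv_one hψ) j 0 c (by simp)
  exact Ideal.pow_le_pow_right (by omega) h1

theorem nonunit_primes' (A : Type u) [CommRing A] [IsDomain A] [CharZero A] [alg : Algebra ℤ A]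
    [h : Algebra.FiniteType ℤ A] :
    ∃ N : ℕ, N ≠ 0 ∧ ∀ p : ℕ, p.Prime → ¬ p ∣ N → ¬ IsUnit (p : A) := by
  obtain rfl : alg = Ring.toIntAlgebra A := Subsingleton.elim _ _
  exact nonunit_primes A

/-- almost all primes are admissible if the additive group is torsion-free -/
theorem nonunit_assoc (A : Type u) [CommRing A] [Algebra.FiniteType ℤ A]
    (htf : ∀ n : ℕ, n ≠ 0 → ∀ a : A, (n : A) * a = 0 → a = 0) :
    ∃ E : Finset ℕ, ∀ p : ℕ, p.Prime → p ∉ E →
      ∀ P ∈ associatedPrimes A A, ¬ IsUnit ((p : ℕ) : A ⧸ P) := by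
  classical
  haveI : IsNoetherianRing A := Algebra.FiniteType.isNoetherianRing ℤ _
  have hfin := associatedPrimes.finite A A
  have h1 : ∀ P : Ideal A, ∃ E : Finset ℕ, P ∈ associatedPrimes A A → ∀ p : ℕ, p.Prime → p ∉ E →
      ¬ IsUnit ((p : ℕ) : A ⧸ P) := by
    intro P
    by_cases hP : P ∈ associatedPrimes A A
    swap
    · exact ⟨∅, fun h => absurd h hP⟩
    have hPa : IsAssociatedPrime P A := hP
    obtain ⟨hPp, y, hy⟩ := (isAssociatedPrime_iff (I := P) (M := A)).1 hPa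
    haveI := hPp
    have hy0 : y ≠ 0 := by
      rintro rfl
      apply hPp.ne_top
      rw [hy, Ideal.eq_top_iff_one, Submodule.mem_colon_singleton]
      simp
    haveI : CharZero (A ⧸ P) := by
      refine charZero_of_inj_zero fun n hn => ?_
      by_contra hne
      have h2 : ((n : ℕ) : A) ∈ P := by
        rw [← Ideal.Quotient.eq_zero_iff_mem, map_natCast]
        exact hn
      rw [hy, Submodule.mem_colon_singleton] at h2
      have h3 : (n : A) * y = 0 := by simpa using h2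
      exact hy0 (htf n hne y h3)
    have h4 : Algebra.FiniteType ℤ (A ⧸ P) :=
      Algebra.FiniteType.of_surjective ((Ideal.Quotient.mkₐ A P).restrictScalars ℤ)
        Ideal.Quotient.mk_surjective
    obtain ⟨N, hN0, hN⟩ := nonunit_primes' (A ⧸ P)
    exact ⟨N.primeFactors, fun _ p hp hpE =>
      hN p hp fun h => hpE (Nat.mem_primeFactors.2 ⟨hp, h, hN0⟩)⟩
  choose E hE using h1
  refine ⟨hfin.toFinset.biUnion E, fun p hp hpE P hP => ?_⟩
  refine hE P hP p hp fun h => hpE ?_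
  exact Finset.mem_biUnion.2 ⟨P, hfin.mem_toFinset.2 hP, h⟩

end Pool.Agent.TH107.LB
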